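import Pool.Agent.H500.AS.Stm
import Pool.Agent.H500.HC.Main

set_option autoImplicit false
set_option linter.unusedSectionVars false

/-!
# Project R2 (helper500): residual images over number fields

Available: `Pool.Agent.H500.AS.all_Bridge`, `all_Mod` (in `Pool.Agent.H500.AS.All`), and
`Pool.Agent.H500.HC.all_Crt`, `all_Exp`, `all_Cls`, `all_Dir`, `all_Nrm`, `all_Deg`, … (in
`Pool.Agent.H500.HC.All`, statements in `HC/Stm.lean`).

Notation: `GK K` is the absolute Galois group of the number field `K`, `IsFrob v σ` / `IsInert v σ`: `σ` is a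
Frobenius / an inertia element for a maximal ideal above `v`, `dens P X` the number of the places with
norm `≤ X` and the property `P`, divided by `π(X)`.
-/

namespace Pool.Agent.H500.R2

open NumberField IsDedekindDomain Filter Topology Polynomial
open Pool.Agent.W401.Cheb (GK IsFrob IsInert dens)
open Pool.Agent.H500.HC (InRay IsRayChar TotPos QBar ZBar em typ jz)
open Pool.Agent.H500.MW (PosUD)

section

variable {K : Type} [Field K] [NumberField K]

/-- `U` contains the inertia groups of the places which do not contain `M` -/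
def UnrOut (M : ℕ) (U : Subgroup (GK K)) : Prop :=
  ∀ v : HeightOneSpectrum (𝓞 K), (M : 𝓞 K) ∉ v.asIdeal → ∀ σ, IsInert v σ → σ ∈ U

/-- the prime number below `v` splits completely in `E`: all the places of `E` above it have norm `p`
and ramification index one -/
def SpC (E : Type) [Field E] [NumberField E] (v : HeightOneSpectrum (𝓞 K)) : Prop :=
  ∀ (p : ℕ) (w : HeightOneSpectrum (𝓞 E)), p.Prime → (p : 𝓞 K) ∈ v.asIdeal →
    (p : 𝓞 E) ∈ w.asIdeal → Ideal.absNorm w.asIdeal = p ∧ (p : 𝓞 E) ∉ w.asIdeal ^ 2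

/-- `χ` is the function on the ideals attached to `θ`, zero at the ideals which are not prime to `M` -/
structure ChD (M : ℕ) (θ : GK K →* ℂˣ) (χ : Ideal (𝓞 K) →*₀ ℂ) : Prop where
  supp : ∀ 𝔞 : Ideal (𝓞 K), 𝔞 ≠ ⊥ → (χ 𝔞 ≠ 0 ↔ IsCoprime 𝔞 (Ideal.span {(M : 𝓞 K)}))
  frob : ∀ v : HeightOneSpectrum (𝓞 K), (M : 𝓞 K) ∉ v.asIdeal → ∀ σ, IsFrob v σ →
    χ v.asIdeal = (θ σ : ℂ)

end

/-- PART 1 (the structure at `l` of the characters of order dividing `m`).
From `Pool.Agent.H500.AS.all_Bridge`, `all_Mod`, `Pool.Agent.H500.HC.all_Crt`, `all_Exp`.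
Proof.  Let `l` be the norm of `lam`, large (`l ∤ N m`), `k` an algebraic closure of `𝓞_E / lam`, `φ : 𝓞_E → k`.  The
image of `θ` is contained in the `m`-th roots of unity of `ℂ`, which are isomorphic to those of `k` (cyclic of
order `m`): this gives `θ' : GK K →* kˣ`.  `all_Bridge` (for `N * l`, with `k` and with `ℂ`) gives `χ'` and `χ`, and `χ'`
is obtained from `χ` by the isomorphism (unique factorization of ideals).  `all_Mod` with `κ = m`
(`r^(m+1) ∤ m`): `IsRayChar (N^(m+2) * l) χ'`.  `all_Exp` with `N^(m+2)`: exponents `a σ`.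
Let `g` be an integer which is a primitive root mod `l`; with the `y` from `all_Crt` (2), `em σ y ≡ g`,
`em τ y ≡ 1`, one gets `g^(m a σ) = 1` in `k`, so `(l - 1) ∣ m * a σ`.  If `(l - 1) ∣ a σ` for all `σ`, we are in the first
case.  Otherwise let `D = gcd(l - 1, a σ (σ : K →+* E))`, `D < l - 1`, `(l - 1)/D ∣ m`, `r` a prime factor of
`(l - 1)/D`, `c σ = (a σ / D) % r`; not all are `0`.  If `χ((x)) = 1`, so `∏ σ(x)^(a σ) = 1` in `k`, then `z^D = 1`,
`z = ∏ σ(x)^(a σ/D)`, and `z^((l-1)/r) = 1` as `D ∣ (l-1)/r`; and `σ(x)^(l-1) = 1` (`𝓞_E/lam = 𝔽_l`). -/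
def S_Str : Prop := ∀ (K E : Type) [Field K] [NumberField K] [Field E] [NumberField E],
  Fintype.card (K →+* E) = Module.finrank ℚ K → ∀ N m : ℕ, 2 ≤ N → 0 < m → ∃ B : ℕ,
  ∀ lam : HeightOneSpectrum (𝓞 E), (Ideal.absNorm lam.asIdeal).Prime → B < Ideal.absNorm lam.asIdeal →
  ∀ θ : GK K →* ℂˣ, IsOpen (θ.ker : Set (GK K)) → (∀ σ, θ σ ^ m = 1) →
  UnrOut (N * Ideal.absNorm lam.asIdeal) θ.ker →
  ∃ χ : Ideal (𝓞 K) →*₀ ℂ, ChD (N * Ideal.absNorm lam.asIdeal) θ χ ∧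
    ((∀ x : 𝓞 K, InRay (N ^ (m + 2)) x → (∀ σ : K →+* E, em σ x ∉ lam.asIdeal) →
      χ (Ideal.span {x}) = 1) ∨
    ∃ (r : ℕ) (c : (K →+* E) → ℕ), r.Prime ∧ r ∣ m ∧ r ∣ Ideal.absNorm lam.asIdeal - 1 ∧
      (∃ σ, ¬ r ∣ c σ) ∧ (∀ σ, c σ < r) ∧
      ∀ x : 𝓞 K, InRay (N ^ (m + 2)) x → (∀ σ, em σ x ∉ lam.asIdeal) → χ (Ideal.span {x}) = 1 →
        typ c x ^ ((Ideal.absNorm lam.asIdeal - 1) / r) - 1 ∈ lam.asIdeal)

/-- PART 2 (conductor prime to `l`: unramified at `l`, with finitely many exceptions).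
From `Pool.Agent.H500.HC.all_Cls` and Chebotarev.
Proof.  Suppose the set is infinite; then infinitely many prime numbers `l` occur.  `all_Cls` for the
modulus `N^M` gives `h`, `R`.  Take only the `l` which are prime to all `𝔯 ∈ R` and to `N`.  For an ideal `𝔞`
prime to `N * l`: `𝔞 𝔯^(h-1) = (x)`, `InRay (N^M) x`, `x` prime to `l`, so `em σ x ∉ lam` and `χ(𝔞) = χ(𝔯)^(1-h)`
is determined by the values of `χ` on `R`, which are `m`-th roots of unity (products of values of `θ`):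
finitely many possibilities.  So there are two `lam`, `lam'` with different `l`, `l'` in the set with the
same values on `R`; then `χ = χ'` at all ideals prime to `N l l'`, `θ` and `θ'` agree at the Frobenius
elements of all `v` not containing `N l l'`, so `θ = θ'` (Chebotarev: every class of the open subgroup
`θ.ker ⊓ θ'.ker` contains Frobenius elements of such `v`; see `Pool.Agent.H500.MW.dens_sub`,
`Pool.Agent.W401.Cheb`, `Pool.Agent.W352.ChAbs`).  A place `v` which does not contain `N` does not contain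
`N l` or does not contain `N l'`: so `θ.ker` is `UnrOut N`.  Contradiction. -/
def S_Pig : Prop := ∀ (K E : Type) [Field K] [NumberField K] [Field E] [NumberField E],
  ∀ N M m : ℕ, 0 < N → 0 < m →
  {lam : HeightOneSpectrum (𝓞 E) | (Ideal.absNorm lam.asIdeal).Prime ∧
    ∃ (θ : GK K →* ℂˣ) (χ : Ideal (𝓞 K) →*₀ ℂ), IsOpen (θ.ker : Set (GK K)) ∧ (∀ σ, θ σ ^ m = 1) ∧
    UnrOut (N * Ideal.absNorm lam.asIdeal) θ.ker ∧ ¬ UnrOut N θ.ker ∧
    ChD (N * Ideal.absNorm lam.asIdeal) θ χ ∧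
    ∀ x : 𝓞 K, InRay (N ^ M) x → (∀ σ : K →+* E, em σ x ∉ lam.asIdeal) →
      χ (Ideal.span {x}) = 1}.Finite

/-- PART 3 (finitely many characters).  From `Pool.Agent.H500.AS.all_Bridge`, `all_Mod`,
`Pool.Agent.H500.HC.all_Cls` and Chebotarev.
Proof.  Choose a prime number `l ∤ N m`, `k` an algebraic closure of `ZMod l`; as in Part 1 `θ` gives
`θ' : GK K →* kˣ` (the isomorphism of the groups of `m`-th roots of unity is fixed) and `χ' : Ideal →*₀ k` with
`IsRayChar (N^(m+2) * l) χ'` (`UnrOut N` implies `UnrOut (N * l)`; `all_Bridge`, `all_Mod` with `κ = m`).  By `all_Cls`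
`χ'` is determined on the ideals prime to `N l` by its values on `R`, `m`-th roots of unity; and `θ` is
determined by `χ'` (Chebotarev). -/
def S_FinChar : Prop := ∀ (K : Type) [Field K] [NumberField K] (N m : ℕ), 2 ≤ N → 0 < m →
  {θ : GK K →* ℂˣ | IsOpen (θ.ker : Set (GK K)) ∧ (∀ σ, θ σ ^ m = 1) ∧ UnrOut N θ.ker}.Finite

/-- PART 4 (independent elements).  From `Pool.Agent.H500.HC.all_Cls`, `all_Crt`.
Proof.  `all_Cls` (modulus `N`): `h`, `R`.  `V` is infinite; keep the `v` whose residue characteristic is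
larger than the `B` of `all_Crt`, pairwise different, and with the same `𝔯 ∈ R`: `v 𝔯^(h-1) = (x_v)`,
`InRay N x_v`.  Fix one of them, `v1`, and `v1^h = (y)`, `InRay N y`.  For the others `v v1^(h-1) = (x)` with
`x = x_v y / x_{v1}` (`v v1^(h-1) (x_{v1}) = (x_v) (y)`, so `x_{v1} ∣ x_v y`), `InRay N x` (`InRay.of_mul`).  Take `s`
of them, `x_i`.  Independence: `σ0` with `r ∤ c σ0`; `w` a place of `E` with `{x : σ0(x) ∈ w} = v_i` (exists, integral
extension), `p` below `v_i`: `w` has norm `p` and `p ∉ w^2` (`SpC`).  For `σ ≠ σ0`, `{x : σ(x) ∈ w} ≠ v_i` (`all_Crt`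
for `w`: choose with (2) an element `y` with `em σ0 y ∈ w`, `em σ y ∉ w`).  So `ord_w (em σ x_i) = 0`,
`ord_w (em σ0 x_i) = 1` (`p ∈ v_i`, `x_i ∈ v_i`, `x_i ∉ v_i^2`, and `em σ0 (v_i) ⊄ w^2` as `p ∈ v_i`: localize, or use:
there is `b ∉ v_i` with `b p ∈ (x_i)`, so `ord_w (em σ0 x_i) ≤ ord_w (p) = 1`), and `ord_w (em σ x_j) = 0` for `j ≠ i`
(other residue characteristic).  So `ord_w (∏ typ c (x j)^(n j)) = c σ0 * n i`; if the product is an `r`-th
power, `r ∣ c σ0 * n i`, so `n i = 0`. -/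
def S_CB1 : Prop := ∀ (K E : Type) [Field K] [NumberField K] [Field E] [NumberField E],
  Fintype.card (K →+* E) = Module.finrank ℚ K → ∀ (N r s : ℕ) (c : (K →+* E) → ℕ), 0 < N → r.Prime →
  (∃ σ, ¬ r ∣ c σ) → ∀ V : Set (HeightOneSpectrum (𝓞 K)), V.Infinite →
  (∀ v ∈ V, (N : 𝓞 K) ∉ v.asIdeal ∧ SpC E v) →
  ∃ (T : Finset (HeightOneSpectrum (𝓞 K))) (x : Fin s → 𝓞 K), (∀ v ∈ T, v ∈ V) ∧
    (∀ i, InRay N (x i) ∧ ∃ w ∈ T, ∃ w1 ∈ T, ∃ e : ℕ,
      w.asIdeal * w1.asIdeal ^ e = Ideal.span {x i}) ∧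
    ∀ n : Fin s → ZMod r, (∃ ε : 𝓞 E, ε ^ r = ∏ i, typ c (x i) ^ (n i).val) → n = 0

/-- PART 5 (Kummer theory and Chebotarev).  The density of the places of `E` at which independent
elements are `r`-th powers.  Proof: `Pool.Agent.H500.KumI` (`exists_KJ`, `KJ.Phi`, `isOpen_ker`, `card_ge`): for
`lam` not containing `r` and the `z i`, `r ∣ N(lam) - 1`, and a Frobenius element `σ` at `lam`, `D.chi σ = 1`
(`z^{N(lam)} = z`) and `D.kap σ = 0` (`(z i)^((N(lam) - 1)/r) ≡ 1`), so `σ ∈ Phi.ker`; the density of these `lam` is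
`1 / index ≤ 1 / r^s` (`Pool.Agent.H500.MW.dens_sub`).  Compare `Pool.Agent.H500.Dih`, and the proofs in
`Pool/Agent/H215/HC/DensF.lean`. -/
def S_CB2 : Prop := ∀ (E : Type) [Field E] [NumberField E] (r s : ℕ) (z : Fin s → 𝓞 E), r.Prime →
  (∀ i, z i ≠ 0) → (∀ n : Fin s → ZMod r, (∃ ε : 𝓞 E, ε ^ r = ∏ i, z i ^ (n i).val) → n = 0) →
  ∀ P : HeightOneSpectrum (𝓞 E) → Prop, (∀ lam, P lam → r ∣ Ideal.absNorm lam.asIdeal - 1 ∧
    ∀ i, z i ∉ lam.asIdeal → z i ^ ((Ideal.absNorm lam.asIdeal - 1) / r) - 1 ∈ lam.asIdeal) →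
  ∀ ε : ℝ, 1 / (r : ℝ) ^ s < ε → ∀ᶠ X in atTop, dens P X ≤ ε

/-- PART 6 (characters of bounded order which are trivial on a large set are unramified at `l`).
From `S_Str`, `S_Pig`, `S_CB1`, `S_CB2`, `Pool.Agent.H500.HC.all_Deg`.
Proof.  Places of degree `≥ 2` have density zero (`all_Deg`).  For the others, of large norm, with `W lam θ`,
`¬ UnrOut N θ.ker`: `S_Str` gives `χ`, and the first case occurs only for finitely many `lam` (`S_Pig` with
`M = m + 2`).  In the second case we have one of finitely many pairs `(r, c)`.  For given `(r, c)` and `ε`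
choose `s` with `1/r^s < ε`; `S_CB1` (modulus `N^(m+2)`) gives `T ⊆ V`, `x`.  For all but finitely many `lam` the
character `θ` is trivial at the Frobenius elements of all `w ∈ T`, `T` is prime to `l`, so `χ((x i)) = 1` (`ChD.frob`)
and `em σ (x i) ∉ lam`: `typ c (x i)^((N(lam)-1)/r) - 1 ∈ lam`.  `S_CB2`: the upper density is at most `ε`. -/
def S_Cyc : Prop := ∀ (K E : Type) [Field K] [NumberField K] [Field E] [NumberField E],
  Fintype.card (K →+* E) = Module.finrank ℚ K → ∀ N m : ℕ, 2 ≤ N → 0 < m →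
  ∀ V : Set (HeightOneSpectrum (𝓞 K)), V.Infinite → (∀ v ∈ V, (N : 𝓞 K) ∉ v.asIdeal ∧ SpC E v) →
  ∀ W : HeightOneSpectrum (𝓞 E) → (GK K →* ℂˣ) → Prop,
  (∀ lam θ, W lam θ → IsOpen (θ.ker : Set (GK K)) ∧ (∀ σ, θ σ ^ m = 1) ∧
    UnrOut (N * Ideal.absNorm lam.asIdeal) θ.ker) →
  (∀ v ∈ V, {lam | ∃ θ, W lam θ ∧ ∃ σ, IsFrob v σ ∧ θ σ ≠ 1}.Finite) →
  Tendsto (dens fun lam => ∃ θ, W lam θ ∧ ¬ UnrOut N θ.ker) atTop (𝓝 0)

/-- PART 7 (dihedral residual representations).  From `S_Cyc` with `m = 2`, `S_FinChar`.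
Proof.  To `U` of index two belongs `θ : GK K →* ℂˣ` with values `±1` and kernel `U`; `W lam θ`: its kernel is a
`U` as in the hypothesis for `lam`, and `Λ lam`.  `V = {v | N ∉ v, SpC E v, a v ≠ 0}`: for `v ∈ V` the `lam` with
`a v ∈ lam` or `N(lam) ∈ v` are finite in number (`Pool.Agent.H500.Kum.fin_mem`), for the others
`IsFrob v σ → σ ∈ U`.  So by `S_Cyc` and `PosUD.diff` there are infinitely many `lam` with a `U` which is
`UnrOut N`; by `S_FinChar` the same `U` for infinitely many `lam`; then `a v ∈ lam` for infinitely many `lam`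
(`Pool.Agent.H500.HC.zero_of_inf`) for all `v` with a Frobenius element not in `U`. -/
def S_Dih : Prop := ∀ (K E : Type) [Field K] [NumberField K] [Field E] [NumberField E],
  Fintype.card (K →+* E) = Module.finrank ℚ K → ∀ (N : ℕ) (a : HeightOneSpectrum (𝓞 K) → 𝓞 E),
  2 ≤ N → {v : HeightOneSpectrum (𝓞 K) | (N : 𝓞 K) ∉ v.asIdeal ∧ SpC E v ∧ a v ≠ 0}.Infinite →
  ∀ Λ : HeightOneSpectrum (𝓞 E) → Prop, PosUD Λ →
  (∀ lam, Λ lam → ∃ U : Subgroup (GK K), IsOpen (U : Set (GK K)) ∧ U.index = 2 ∧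
    UnrOut (N * Ideal.absNorm lam.asIdeal) U ∧ ∀ v : HeightOneSpectrum (𝓞 K), (N : 𝓞 K) ∉ v.asIdeal →
      ((Ideal.absNorm lam.asIdeal : ℕ) : 𝓞 K) ∉ v.asIdeal → ∀ σ, IsFrob v σ → σ ∉ U →
      a v ∈ lam.asIdeal) →
  ∃ U : Subgroup (GK K), IsOpen (U : Set (GK K)) ∧ U.index = 2 ∧ UnrOut N U ∧
    ∀ v : HeightOneSpectrum (𝓞 K), (N : 𝓞 K) ∉ v.asIdeal → ∀ σ, IsFrob v σ → σ ∉ U → a v = 0

/-- PART 8 (Chebotarev with completely split places).
Proof.  Let `Ê` be the Galois closure of `E` over `ℚ` (normal closure in an algebraic closure of `K`; embed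
`E`), `M = K Ê`, `U0` the subgroup fixing `M`.  For `g ∈ U0` and `U'` open normal the places `v` of `K` with a
Frobenius element in `g (U' ⊓ U0)` have positive density (`Pool.Agent.W401.Cheb`, Chebotarev), the
places of degree `≥ 2` have density zero (`Pool.Agent.H500.HC.all_Deg`), so infinitely many `v` of degree
one, large norm `p`, have a Frobenius element `σ ∈ g (U' ⊓ U0)`, `σ ∈ U0`.  `σ` acts trivially on `Ê`, and as
`x ↦ x^p` on `𝓞_Ê / w0` for a place `w0` of `Ê` above `p`: so `𝓞_Ê / w0 = 𝔽_p`.  All places of `Ê` above `p` are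
conjugate, so they have norm `p`; so have the places of `E` above `p`; and `p` is unramified in `E`
for `p` large (`Pool.Agent.H500.Quad.unram_of`). -/
def S_Spl : Prop := ∀ (K E : Type) [Field K] [NumberField K] [Field E] [NumberField E],
  ∃ U0 : Subgroup (GK K), IsOpen (U0 : Set (GK K)) ∧ U0.Normal ∧
  ∀ U' : Subgroup (GK K), U'.Normal → IsOpen (U' : Set (GK K)) → ∀ g ∈ U0, ∀ N : ℕ, 0 < N →
  {v : HeightOneSpectrum (𝓞 K) | (N : 𝓞 K) ∉ v.asIdeal ∧ SpC E v ∧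
    ∃ σ, IsFrob v σ ∧ g⁻¹ * σ ∈ U'}.Infinite

/-- PART 9 (projectively finite case).
Proof.  Fix `v`, `σ` a Frobenius element at `v`.  Work in `Z̄` = the integers of an algebraic closure of `E`
(an infinite extension is fine), or in a number field containing `E` and the 60-th roots of unity.
For `lam ∈ S` not containing `30`, the norm of `v`, `d v ≠ 0`…: let `s, t` be the eigenvalues of `ρ σ` in an algebraic
closure `k'` of `k`; `s^60 = t^60`, `s, t ≠ 0`, `s/t = ζ'`, `ζ'^60 = 1`, and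
`(s + t)^2 = (ζ' + ζ'⁻¹ + 2) s t`; extend `φ` to `Φ : Z̄ → k'` (as in `Pool.Agent.H500.LI.exists_lift`), `ζ' = Φ(ζ)` for a
60-th root of unity `ζ` (`X^60 - 1` splits in `Z̄`).  So `Φ(ζ (a v)^2 - (ζ + 1)^2 (d v)) = 0`; for infinitely many `lam`
the same `ζ`; the element is zero (compare `Pool.Agent.H500.HC.eq_zero_of_inf`). -/
def S_Exc : Prop := ∀ (K E : Type) [Field K] [NumberField K] [Field E] [NumberField E] (N : ℕ)
  (a d : HeightOneSpectrum (𝓞 K) → 𝓞 E) (S : Set (HeightOneSpectrum (𝓞 E))), 0 < N → S.Infinite →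
  (∀ lam ∈ S, ∃ (k : Type) (_ : Field k) (φ : 𝓞 E →+* k) (ρ : GK K →* GL (Fin 2) k),
    RingHom.ker φ = lam.asIdeal ∧
    (∀ g, ∃ c : k, (ρ g : Matrix (Fin 2) (Fin 2) k) ^ 60 = c • (1 : Matrix (Fin 2) (Fin 2) k)) ∧
    ∀ v : HeightOneSpectrum (𝓞 K), (N : 𝓞 K) ∉ v.asIdeal →
      ((Ideal.absNorm lam.asIdeal : ℕ) : 𝓞 K) ∉ v.asIdeal → ∀ σ, IsFrob v σ →
      (ρ σ : Matrix (Fin 2) (Fin 2) k).trace = φ (a v) ∧
      (ρ σ : Matrix (Fin 2) (Fin 2) k).det = φ (d v)) →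
  ∀ v : HeightOneSpectrum (𝓞 K), (N : 𝓞 K) ∉ v.asIdeal → ∃ ζ : AlgebraicClosure E, ζ ^ 60 = 1 ∧
    algebraMap E (AlgebraicClosure E) (a v) ^ 2 =
      (ζ + ζ⁻¹ + 2) * algebraMap E (AlgebraicClosure E) (d v)

/-- PART 10 (weight two: the projectively finite case does not occur).
Proof.  Choose `v` in the infinite set, `p` below `v`, `p > 5`.  `w` a place of `E` above `v` (for an embedding
`K →+* E`, which exists), norm `p`, `p ∉ w^2`; `𝓞_K / v ⊆ 𝓞_E / w = 𝔽_p`, so the norm of `v` is `p`.  Suppose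
`(a v)^2 = (ζ + ζ⁻¹ + 2) (b v) p`, `ζ^60 = 1`.  `ζ ≠ -1` as `a v ≠ 0`.  `c = (ζ + ζ⁻¹ + 2) (b v) = (a v)^2 / p` is in
`E` and an algebraic integer, so in `𝓞_E`, `c p = (a v)^2`; `p ∈ w` so `a v ∈ w`, `(a v)^2 ∈ w^2`, `p ∉ w^2`: `c ∈ w`.  But
`1 + ζ` divides `60` in the algebraic integers (`-ζ` is a root `≠ 1` of `X^60 - 1`, and
`60 = ∏ (1 - ζ')` over the roots `≠ 1`), so `c` divides `60^2` (`ζ`, `b v` units), `60^2 ∈ w`, `p ∣ 60^2`. -/
def S_W2 : Prop := ∀ (K E : Type) [Field K] [NumberField K] [Field E] [NumberField E],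
  Fintype.card (K →+* E) = Module.finrank ℚ K → ∀ (N M : ℕ) (a b : HeightOneSpectrum (𝓞 K) → 𝓞 E),
  0 < N → 0 < M →
  {v : HeightOneSpectrum (𝓞 K) | (N : 𝓞 K) ∉ v.asIdeal ∧ SpC E v ∧ a v ≠ 0}.Infinite →
  (∀ v : HeightOneSpectrum (𝓞 K), (N : 𝓞 K) ∉ v.asIdeal → b v ^ M = 1) →
  ∃ v : HeightOneSpectrum (𝓞 K), (N : 𝓞 K) ∉ v.asIdeal ∧ ¬ ∃ ζ : AlgebraicClosure E, ζ ^ 60 = 1 ∧
    algebraMap E (AlgebraicClosure E) (a v) ^ 2 =
      (ζ + ζ⁻¹ + 2) * (algebraMap E (AlgebraicClosure E) (b v) *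
        ((Ideal.absNorm v.asIdeal : ℕ) : AlgebraicClosure E))

/-- PART 11 (weight two: the types).  From `Pool.Agent.H500.HC.all_Dir`, `all_Nrm`.
Proof.  Let `σ : K →+* E`.  `all_Dir` for `E` (modulus `N`, `x0 = 1`, a large bound): a prime `w = (y)` of degree
one of `E`, `InRay N y`; `all_Nrm`: `v = (x)`, `InRay N x`, norm of `v` = norm of `w` = `p` prime, `em σ x ∈ w`,
`em σ x ∉ w^2`, `em τ x ∉ w` for `τ ≠ σ`.  `typ (t 0) x * typ (t 1) x = b v * p` (`jz_inj`), `b v` a unit, `p ∉ w^2` for `p`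
large: comparing `w`-adic valuations, `t 0 σ + t 1 σ = 1`.  So `t 0` is the indicator function of a set `Φ`
and `t 1` the one of the complement. -/
def S_Eis : Prop := ∀ (K E : Type) [Field K] [NumberField K] [Field E] [NumberField E],
  Fintype.card (K →+* E) = Module.finrank ℚ K → ∀ (j : E →+* QBar) (N M : ℕ)
  (a b : HeightOneSpectrum (𝓞 K) → 𝓞 E) (t : Fin 2 → (K →+* E) → ℕ)
  (ψ : Fin 2 → (Ideal (𝓞 K) →*₀ ZBar)), 0 < N → 0 < M →
  (∀ i (x : 𝓞 K), InRay N x → ψ i (Ideal.span {x}) = jz j (typ (t i) x)) →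
  (∀ v : HeightOneSpectrum (𝓞 K), (N : 𝓞 K) ∉ v.asIdeal → b v ^ M = 1 ∧
    jz j (a v) = ψ 0 v.asIdeal + ψ 1 v.asIdeal ∧
    jz j (b v * ((Ideal.absNorm v.asIdeal : ℕ) : 𝓞 E)) = ψ 0 v.asIdeal * ψ 1 v.asIdeal) →
  ∃ Φ : (K →+* E) → Prop, ∀ (v : HeightOneSpectrum (𝓞 K)) (x : 𝓞 K), (N : 𝓞 K) ∉ v.asIdeal →
    v.asIdeal = Ideal.span {x} → InRay N x →
    open scoped Classical in
    a v = (∏ σ, if Φ σ then em σ x else 1) + ∏ σ, if Φ σ then 1 else em σ x

end Pool.Agent.H500.R2
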