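import Pool.Agent.H500.AS.All
import Pool.Agent.H500.HC.All
import Pool.Agent.H500.R2.Stm
import Pool.Agent.H500.MWC

set_option autoImplicit false
set_option linter.unusedSectionVars false

/-!
# Families which are residually sums of characters come from Hecke characters

The theorem of project HC (`Pool.Agent.H500.HC.main`), with characters of the absolute Galois
group in place of ray class characters.
-/

namespace Pool.Agent.H500.R2

open NumberField IsDedekindDomain Filter Topology Polynomial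
open Pool.Agent.W401.Cheb (GK IsFrob IsInert dens)
open Pool.Agent.H500.HC
open Pool.Agent.H500.MW (PosUD)

variable {K : Type} [Field K] [NumberField K]

/-- Chebotarev: every coset of an open normal subgroup contains Frobenius elements of infinitely
many places -/
theorem frob_inf (U : Subgroup (GK K)) (hn : U.Normal) (hU : IsOpen (U : Set (GK K))) (g : GK K) :
    PosUD (fun v : HeightOneSpectrum (𝓞 K) => ∃ σ, IsFrob v σ ∧ g⁻¹ * σ ∈ U) := by
  classical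
  set C : Set (GK K) := {σ | ∃ τ : GK K, (τ * g * τ⁻¹)⁻¹ * σ ∈ U} with hC
  have h1 := Pool.Agent.W528.Ord.chebK K U hU C
    (by
      rintro σ ⟨τ, hτ⟩ ρ
      refine ⟨ρ * τ, ?_⟩
      have h2 : (ρ * τ * g * (ρ * τ)⁻¹)⁻¹ * (ρ * σ * ρ⁻¹) = ρ * ((τ * g * τ⁻¹)⁻¹ * σ) * ρ⁻¹ := by group
      rw [h2]
      exact hn.conj_mem _ hτ ρ)
    (by
      rintro σ ⟨τ, hτ⟩ u hu
      refine ⟨τ, ?_⟩
      rw [← mul_assoc]
      exact U.mul_mem hτ hu)
  have hfin : Finite (GK K ⧸ U) := Subgroup.quotient_finite_of_isOpen _ hU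
  have hcard : 0 < Nat.card (GK K ⧸ U) := Nat.card_pos
  have himg : 0 < ((QuotientGroup.mk : GK K → GK K ⧸ U) '' C).ncard := by
    rw [Set.ncard_pos (Set.toFinite _)]
    exact ⟨_, g, ⟨1, by simp⟩, rfl⟩
  have hpos : (0 : ℝ) < (((QuotientGroup.mk : GK K → GK K ⧸ U) '' C).ncard : ℝ) /
      (Nat.card (GK K ⧸ U) : ℝ) := div_pos (by exact_mod_cast himg) (by exact_mod_cast hcard)
  have h2 : PosUD (fun v : HeightOneSpectrum (𝓞 K) => ∃ σ ∈ C, IsFrob v σ) := by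
    refine ⟨_, half_pos hpos, Eventually.frequently ?_⟩
    exact (h1.eventually (lt_mem_nhds (half_lt_self hpos))).mono fun N hN => hN.le
  refine h2.mono ?_
  rintro v ⟨σ, ⟨τ, hτ⟩, hσ⟩
  refine ⟨τ⁻¹ * σ * τ⁻¹⁻¹, (Pool.Agent.W401.Frob.main K).2.2 v σ τ⁻¹ hσ, ?_⟩
  have h3 : g⁻¹ * (τ⁻¹ * σ * τ⁻¹⁻¹) = τ⁻¹ * ((τ * g * τ⁻¹)⁻¹ * σ) * τ⁻¹⁻¹ := by group
  rw [h3]
  exact hn.conj_mem _ hτ τ⁻¹

/-- the same, for places not containing `M` -/
theorem frob_ex (U : Subgroup (GK K)) (hn : U.Normal) (hU : IsOpen (U : Set (GK K))) (g : GK K)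
    {M : ℕ} (hM : 0 < M) : ∃ (v : HeightOneSpectrum (𝓞 K)) (σ : GK K), (M : 𝓞 K) ∉ v.asIdeal ∧
      IsFrob v σ ∧ g⁻¹ * σ ∈ U := by
  have h1 := (frob_inf U hn hU g).infinite
  have h2 : {v : HeightOneSpectrum (𝓞 K) | (M : 𝓞 K) ∈ v.asIdeal}.Finite :=
    Pool.Agent.H500.Kum.fin_mem (E := K) (x := (M : 𝓞 K)) (by exact_mod_cast hM.ne')
  obtain ⟨v, ⟨σ, hσ, hU⟩, hv⟩ := (h1.sdiff h2).nonempty
  exact ⟨v, σ, hv, hσ, hU⟩

/-- every place has a Frobenius element -/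
theorem frob_at (v : HeightOneSpectrum (𝓞 K)) : ∃ σ : GK K, IsFrob v σ :=
  (Pool.Agent.W401.Frob.main K).1 v

/-- the range of a homomorphism with open kernel -/
theorem fin_range {A : Type} [Group A] (f : GK K →* A) (hf : IsOpen (f.ker : Set (GK K))) :
    Finite f.range := by
  have h1 : Finite (GK K ⧸ f.ker) := Subgroup.quotient_finite_of_isOpen _ hf
  exact Finite.of_equiv _ (QuotientGroup.quotientKerEquivRange f).toEquiv

variable {E : Type} [Field E] [NumberField E]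

/-- the polynomials `P v` are matched modulo `lam` by `n` characters of the absolute Galois group,
unramified outside `N` and the residue characteristic -/
def AbGal (N n : ℕ) (P : HeightOneSpectrum (𝓞 K) → (𝓞 E)[X]) (lam : HeightOneSpectrum (𝓞 E)) :
    Prop :=
  ∃ (k : Type) (_ : Field k) (φ : 𝓞 E →+* k) (θ : Fin n → (GK K →* kˣ)),
    RingHom.ker φ = lam.asIdeal ∧ (∀ i, IsOpen ((θ i).ker : Set (GK K))) ∧
    (∀ i, UnrOut (N * Ideal.absNorm lam.asIdeal) (θ i).ker) ∧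
    ∀ v : HeightOneSpectrum (𝓞 K), (N : 𝓞 K) ∉ v.asIdeal →
      ((Ideal.absNorm lam.asIdeal : ℕ) : 𝓞 K) ∉ v.asIdeal → ∀ σ, IsFrob v σ →
      (P v).map φ = ∏ i, (X - Polynomial.C (θ i σ : k))

/-- the residue characteristic -/
theorem exists_char (lam : HeightOneSpectrum (𝓞 E)) : ∃ l f : ℕ, l.Prime ∧
    (l : 𝓞 E) ∈ lam.asIdeal ∧ 0 < f ∧ Ideal.absNorm lam.asIdeal = l ^ f := by
  classical
  have hmax := lam.isMaximal
  let _ : Field (𝓞 E ⧸ lam.asIdeal) := Ideal.Quotient.field lam.asIdeal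
  have hfin : Finite (𝓞 E ⧸ lam.asIdeal) := Ideal.finiteQuotientOfFreeOfNeBot _ lam.ne_bot
  let _ : Fintype (𝓞 E ⧸ lam.asIdeal) := Fintype.ofFinite _
  obtain ⟨l, hl⟩ := CharP.exists (𝓞 E ⧸ lam.asIdeal)
  obtain ⟨f, hlp, hcard⟩ := FiniteField.card (𝓞 E ⧸ lam.asIdeal) l
  refine ⟨l, f, hlp, ?_, f.pos, ?_⟩
  · rw [← Ideal.Quotient.eq_zero_iff_mem, map_natCast]
    exact CharP.cast_eq_zero _ l
  · rw [Ideal.absNorm_apply, Submodule.cardQuot_apply, Nat.card_eq_fintype_card]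
    exact hcard

/-- the orders of roots modulo `lam` of polynomials which are monic of degree `n` modulo `lam` -/
theorem root_ord (lam : HeightOneSpectrum (𝓞 E)) {k : Type} [Field k] (φ : 𝓞 E →+* k)
    (hφ : RingHom.ker φ = lam.asIdeal) {n : ℕ} (f : (𝓞 E)[X]) (x : Fin n → kˣ)
    (hf : f.map φ = ∏ i, (X - Polynomial.C (x i : k))) (i : Fin n) :
    (x i : k) ^ (Ideal.absNorm lam.asIdeal ^ n.factorial - 1) = 1 := by
  classical
  set g : k[X] := ∏ i, (X - Polynomial.C (x i : k)) with hg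
  have hgm : g.Monic := monic_prod_of_monic _ _ fun i _ => monic_X_sub_C _
  have hgn : g.natDegree = n := by
    rw [hg, natDegree_prod_of_monic _ _ fun i _ => monic_X_sub_C _]
    simp
  set f' : (𝓞 E)[X] := X ^ n + ∑ m ∈ Finset.range n, Polynomial.C (f.coeff m) * X ^ m with hf'
  have hdeg : (∑ m ∈ Finset.range n, Polynomial.C (f.coeff m) * X ^ m : (𝓞 E)[X]).degree < n := by
    rw [← mem_degreeLT]
    refine Submodule.sum_mem _ fun m hm => ?_
    rw [mem_degreeLT]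
    refine lt_of_le_of_lt (degree_C_mul_X_pow_le _ _) ?_
    exact_mod_cast Finset.mem_range.1 hm
  have hm' : f'.Monic := monic_X_pow_add hdeg
  have hn' : f'.natDegree = n := by
    apply natDegree_eq_of_degree_eq_some
    rw [hf', degree_add_eq_left_of_degree_lt (by rw [degree_X_pow]; exact hdeg), degree_X_pow]
  have hmap : f'.map φ = g := by
    have h1 := hgm.as_sum
    rw [hgn] at h1
    rw [h1, hf', Polynomial.map_add, Polynomial.map_pow, map_X, Polynomial.map_sum]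
    congr 1
    refine Finset.sum_congr rfl fun m _ => ?_
    rw [Polynomial.map_mul, map_C, Polynomial.map_pow, map_X, ← hf, coeff_map]
  have hroot : (f'.map φ).IsRoot (x i : k) := by
    rw [hmap, IsRoot, hg, eval_prod]
    exact Finset.prod_eq_zero (Finset.mem_univ i) (by simp)
  have h2 := Pool.Agent.H500.MW.root_fin lam φ hφ f' hm' hn' hroot
  have h3 : 0 < Ideal.absNorm lam.asIdeal ^ n.factorial :=
    pow_pos (Nat.pos_of_ne_zero (norm_ne_zero lam)) _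
  have h4 : (x i : k) ^ (Ideal.absNorm lam.asIdeal ^ n.factorial - 1) * (x i : k) = 1 * (x i : k) := by
    rw [← pow_succ, Nat.sub_add_cancel h3, h2, one_mul]
  exact mul_right_cancel₀ (Units.ne_zero _) h4

theorem gal_res {N n κ : ℕ} (hN : 2 ≤ N) (P : HeightOneSpectrum (𝓞 K) → (𝓞 E)[X])
    (lam : HeightOneSpectrum (𝓞 E)) (hN' : (N : 𝓞 E) ∉ lam.asIdeal)
    (hκ : ∀ r : ℕ, r.Prime → r ∣ N → ¬ r ^ (κ + 1) ∣ Ideal.absNorm lam.asIdeal ^ n.factorial - 1)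
    (h : AbGal N n P lam) : AbRes (N ^ (κ + 2)) n P lam := by
  classical
  obtain ⟨k, _, φ, θ, hker, hop, hun, hfr⟩ := h
  obtain ⟨l, f, hl, hlm, hf0, hlf⟩ := exists_char lam
  have hlN : ¬ l ∣ N := by
    rintro ⟨t, rfl⟩
    exact hN' (by rw [Nat.cast_mul]; exact lam.asIdeal.mul_mem_right _ hlm)
  have hlk : (l : k) = 0 := by
    have h1 : φ (l : 𝓞 E) = 0 := by
      rw [← RingHom.mem_ker, hker]
      exact hlm
    rwa [map_natCast] at h1
  have hiff : ∀ v : HeightOneSpectrum (𝓞 K), (l : 𝓞 K) ∉ v.asIdeal →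
      ((Ideal.absNorm lam.asIdeal : ℕ) : 𝓞 K) ∉ v.asIdeal := by
    intro v hv h1
    rw [hlf, Nat.cast_pow] at h1
    exact hv (v.isPrime.mem_of_pow_mem _ h1)
  have hNl : N * l ≠ 0 := Nat.mul_ne_zero (by omega) hl.ne_zero
  have hmem : ∀ v : HeightOneSpectrum (𝓞 K), ((N * l : ℕ) : 𝓞 K) ∉ v.asIdeal →
      (N : 𝓞 K) ∉ v.asIdeal ∧ (l : 𝓞 K) ∉ v.asIdeal := by
    intro v hv
    rw [Nat.cast_mul] at hv
    exact ⟨fun h => hv (v.asIdeal.mul_mem_right _ h), fun h => hv (v.asIdeal.mul_mem_left _ h)⟩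
  have hmem' : ∀ v : HeightOneSpectrum (𝓞 K), ((N * l : ℕ) : 𝓞 K) ∉ v.asIdeal →
      ((N * Ideal.absNorm lam.asIdeal : ℕ) : 𝓞 K) ∉ v.asIdeal := by
    intro v hv h1
    rw [Nat.cast_mul] at h1
    rcases v.isPrime.mem_or_mem h1 with h2 | h2
    · exact (hmem v hv).1 h2
    · exact hiff v (hmem v hv).2 h2
  -- the orders of the values
  have hord : ∀ i (σ : GK K), (θ i σ : k) ^ (Ideal.absNorm lam.asIdeal ^ n.factorial - 1) = 1 := by
    intro i σ
    set U : Subgroup (GK K) := ⨅ j, (θ j).ker with hU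
    have hUop : IsOpen (U : Set (GK K)) := by
      rw [hU, Subgroup.coe_iInf]
      exact isOpen_iInter_of_finite fun j => hop j
    have hUn : U.Normal := by
      rw [hU]
      exact Subgroup.normal_iInf_normal fun j => inferInstance
    obtain ⟨v, τ, hv, hτ, hτU⟩ := frob_ex U hUn hUop σ (Nat.pos_of_ne_zero hNl)
    have h1 := hfr v (hmem v hv).1 (hiff v (hmem v hv).2) τ hτ
    have h2 : θ i τ = θ i σ := by
      have h3 : σ⁻¹ * τ ∈ (θ i).ker := (Subgroup.mem_iInf.1 (hU ▸ hτU)) i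
      rw [MonoidHom.mem_ker, map_mul, map_inv, inv_mul_eq_one] at h3
      exact h3.symm
    rw [← h2]
    exact root_ord lam φ hker (P v) (fun j => θ j τ) h1 i
  have hB : ∀ i, ∃ χ : Ideal (𝓞 K) →*₀ k, IsRayChar (N ^ (κ + 2) * l) χ ∧
      ∀ v : HeightOneSpectrum (𝓞 K), ((N * l : ℕ) : 𝓞 K) ∉ v.asIdeal → ∀ σ, IsFrob v σ →
        χ v.asIdeal = (θ i σ : k) := by
    intro i
    obtain ⟨χ, e, h1, h2, h3, h4⟩ := Pool.Agent.H500.AS.all_Bridge K (N * l) k (θ i) hNl (hop i)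
      (fun v hv σ hσ => hun i v (hmem' v hv) σ hσ)
    refine ⟨χ, ?_, h3⟩
    refine Pool.Agent.H500.AS.all_Mod K N l e κ k χ hN hl hlN hlk h1 h2 ?_
    intro 𝔞 h𝔞
    obtain ⟨σ, hσ⟩ := h4 𝔞 h𝔞
    refine ⟨_, ?_, hκ⟩
    rw [hσ]
    exact hord i σ
  choose χ hχ1 hχ2 using hB
  refine ⟨k, inferInstance, φ, l, χ, hker, hl, hlm, hχ1, ?_⟩
  intro v hv hvl
  have hv' : (N : 𝓞 K) ∉ v.asIdeal := fun h => hv (by
    rw [Nat.cast_pow]
    exact Ideal.pow_mem_of_mem _ h _ (by omega))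
  have hv2 : ((N * l : ℕ) : 𝓞 K) ∉ v.asIdeal := by
    intro h
    rw [Nat.cast_mul] at h
    rcases v.isPrime.mem_or_mem h with h | h
    · exact hv' h
    · exact hvl h
  obtain ⟨σ, hσ⟩ := frob_at v
  rw [hfr v hv' (hiff v hvl) σ hσ]
  exact Finset.prod_congr rfl fun i _ => by rw [hχ2 i v hv2 σ hσ]

/-- **Families which are residually sums of characters come from Hecke characters.** -/
theorem gal_main (hcard : Fintype.card (K →+* E) = Module.finrank ℚ K) (j : E →+* QBar) (N n : ℕ)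
    (hN : 2 ≤ N) (P : HeightOneSpectrum (𝓞 K) → (𝓞 E)[X]) (hP : PosUD (AbGal N n P)) :
    ∃ (e : ℕ) (t : Fin n → (K →+* E) → ℕ) (ψ : Fin n → (Ideal (𝓞 K) →*₀ ZBar)),
      (∀ i (𝔞 : Ideal (𝓞 K)), 𝔞 ≠ ⊥ → (ψ i 𝔞 ≠ 0 ↔ IsCoprime 𝔞 (Ideal.span {(N : 𝓞 K)}))) ∧
      (∀ i (x : 𝓞 K), InRay (N ^ e) x → ψ i (Ideal.span {x}) = jz j (typ (t i) x)) ∧
      ∀ v : HeightOneSpectrum (𝓞 K), (N : 𝓞 K) ∉ v.asIdeal →
        (P v).map (jz j) = ∏ i, (X - Polynomial.C (ψ i v.asIdeal)) := by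
  classical
  -- remove the places above `N`
  have h1 : PosUD (fun lam : HeightOneSpectrum (𝓞 E) => AbGal N n P lam ∧
      ¬ (N : 𝓞 E) ∈ lam.asIdeal) :=
    hP.diff (Pool.Agent.H500.Kum.dens_fin _ (Pool.Agent.H500.Kum.fin_mem (E := E)
      (x := (N : 𝓞 E)) (by exact_mod_cast (by omega : N ≠ 0))))
  -- remove the places with large `r`-parts
  obtain ⟨κ, hκ⟩ := h1.diff_family (N.primeFactors)
    (fun r κ v => r ^ κ ∣ Ideal.absNorm v.asIdeal ^ n.factorial - 1)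
    (fun r _ a b hab v h => (pow_dvd_pow r hab).trans h)
    (fun r hr ε hε => Pool.Agent.H500.MW.small_pow (Nat.factorial_pos n)
      (Nat.prime_of_mem_primeFactors hr) hε)
  have h2 : PosUD (AbRes (N ^ (κ + 2)) n P) := by
    refine hκ.mono fun lam h => gal_res hN P lam h.1.2 ?_ h.1.1
    intro r hr hrN h3
    exact h.2 r (Nat.mem_primeFactors.2 ⟨hr, hrN, by omega⟩)
      ((pow_dvd_pow r (Nat.le_succ κ)).trans h3)
  obtain ⟨t, ψ, h3, h4, h5⟩ := Pool.Agent.H500.HC.main hcard j (N ^ (κ + 2)) n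
    (pow_pos (by omega) _) P h2
  have hcop : ∀ 𝔞 : Ideal (𝓞 K), IsCoprime 𝔞 (Ideal.span {((N ^ (κ + 2) : ℕ) : 𝓞 K)}) ↔
      IsCoprime 𝔞 (Ideal.span {(N : 𝓞 K)}) := by
    intro 𝔞
    rw [Nat.cast_pow, ← Ideal.span_singleton_pow, IsCoprime.pow_right_iff (by omega)]
  refine ⟨κ + 2, t, ψ, fun i 𝔞 h𝔞 => (h3 i 𝔞 h𝔞).trans (hcop 𝔞), h4, fun v hv => h5 v ?_⟩
  intro h
  rw [Nat.cast_pow] at h
  exact hv (v.isPrime.mem_of_pow_mem _ h)

end Pool.Agent.H500.R2
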