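import Pool.Agent.H294.R2.Str
import Pool.Agent.H740.R2.Pig
import Pool.Agent.H539.R2.CB2
import Pool.Agent.H225.R2.Cyc
import Pool.Agent.H297.R2.Dih
import Pool.Agent.H331.R2.Spl
import Pool.Agent.H155.R2.Exc
import Pool.Agent.H154.R2.W2
import Pool.Agent.H333.R2.Eis
import Pool.Agent.H122.R2.FinChar
import Pool.Agent.H643.R2.CB1

set_option autoImplicit false
set_option linter.unusedSectionVars false

/-!
# Residual images over number fields: all the parts
-/

namespace Pool.Agent.H500.R2

theorem all_Str : S_Str := Pool.Agent.H294.R2.Str.main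

theorem all_Pig : S_Pig := Pool.Agent.H740.R2.Pig.main

theorem all_FinChar : S_FinChar := Pool.Agent.H122.R2.FinChar.main

theorem all_CB1 : S_CB1 := Pool.Agent.H643.R2.CB1.main

theorem all_CB2 : S_CB2 := Pool.Agent.H539.R2.CB2.main

theorem all_Cyc : S_Cyc := Pool.Agent.H225.R2.Cyc.main all_Str all_Pig all_CB1 all_CB2

theorem all_Dih : S_Dih := Pool.Agent.H297.R2.Dih.main all_Cyc all_FinChar

theorem all_Spl : S_Spl := Pool.Agent.H331.R2.Spl.main

theorem all_Exc : S_Exc := Pool.Agent.H155.R2.Exc.main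

theorem all_W2 : S_W2 := Pool.Agent.H154.R2.W2.main

theorem all_Eis : S_Eis := Pool.Agent.H333.R2.Eis.main

end Pool.Agent.H500.R2
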