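import Pool.Graph.R_seed8.W401.Cheb.AbsDefs

set_option autoImplicit false

/-!
# Two-dimensional residual representations of the absolute Galois group of a number field

`GK K` is the absolute Galois group of the number field `K`, `IsInert v τ` says that `τ` lies in an inertia
group at the place `v`, `IsFrob v σ` that `σ` is a Frobenius element at `v`.
-/

namespace Pool.Agent.H500.R2

open NumberField IsDedekindDomain Matrix
open Pool.Agent.W401.Cheb (GK IsFrob IsInert)

variable {K E : Type} [Field K] [NumberField K] [Field E] [NumberField E]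

/-- `ρ` is a residual representation at the place `lam` of `E`, attached to the polynomials
`X ^ 2 - a v X + d v`, for the places `v` of `K` which do not divide `N`; `φ` is the reduction modulo `lam`.
There is no condition at the places dividing `N` and at those above the residue characteristic. -/
structure IsRes (N : ℕ) (a d : HeightOneSpectrum (𝓞 K) → 𝓞 E) (lam : HeightOneSpectrum (𝓞 E))
    {k : Type} [Field k] (φ : 𝓞 E →+* k) (ρ : GK K →* GL (Fin 2) k) : Prop where
  /-- `φ` is a reduction modulo `lam` -/
  ker : RingHom.ker φ = lam.asIdeal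
  /-- `ρ` is continuous -/
  continuous : IsOpen (ρ.ker : Set (GK K))
  /-- `ρ` is unramified outside `N` and the residue characteristic of `lam` -/
  unramified : ∀ v : HeightOneSpectrum (𝓞 K), (N : 𝓞 K) ∉ v.asIdeal →
    ((Ideal.absNorm lam.asIdeal : ℕ) : 𝓞 K) ∉ v.asIdeal → ∀ τ, IsInert v τ → ρ τ = 1
  /-- the traces of the Frobenius elements -/
  trace : ∀ v : HeightOneSpectrum (𝓞 K), (N : 𝓞 K) ∉ v.asIdeal →
    ((Ideal.absNorm lam.asIdeal : ℕ) : 𝓞 K) ∉ v.asIdeal → ∀ σ, IsFrob v σ →
    (ρ σ : Matrix (Fin 2) (Fin 2) k).trace = φ (a v)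
  /-- the determinants of the Frobenius elements -/
  det : ∀ v : HeightOneSpectrum (𝓞 K), (N : 𝓞 K) ∉ v.asIdeal →
    ((Ideal.absNorm lam.asIdeal : ℕ) : 𝓞 K) ∉ v.asIdeal → ∀ σ, IsFrob v σ →
    (ρ σ : Matrix (Fin 2) (Fin 2) k).det = φ (d v)

/-- The image of `ρ` is large: its order is divisible by the characteristic `l` of `k`, and for each
open normal subgroup `U` whose index is not divisible by `l` the restriction of `ρ` to `U` is absolutely
irreducible: it stabilises no line, over no extension `k'` of `k`. -/
def Large {k : Type} [Field k] (ρ : GK K →* GL (Fin 2) k) : Prop :=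
  ringChar k ∣ Nat.card ρ.range ∧
  ∀ U : Subgroup (GK K), U.Normal → IsOpen (U : Set (GK K)) → ¬ ringChar k ∣ U.index →
    ∀ (k' : Type) [Field k'] (ι : k →+* k') (v : Fin 2 → k'), v ≠ 0 →
      ¬ ∀ g ∈ U, ∃ c : k', ((ρ g : Matrix (Fin 2) (Fin 2) k).map ι) *ᵥ v = c • v

end Pool.Agent.H500.R2
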