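import Pool.Agent.H500.R2.Gal
import Pool.Agent.H500.R2.Def
import Pool.Agent.H500.LI2

set_option autoImplicit false
set_option linter.unusedSectionVars false

/-!
# Large residual images over number fields: the assembly
-/

namespace Pool.Agent.H500.R2

open NumberField IsDedekindDomain Filter Topology Polynomial Matrix
open Pool.Agent.W401.Cheb (GK IsFrob IsInert dens)
open Pool.Agent.H500.HC
open Pool.Agent.H500.MW (PosUD posUD_of_not)
open Pool.Agent.H500.LI (map_mulVec map_ne large_of line_char eig_root)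
open Pool.Agent.H500.Lin2

variable {K : Type} [Field K] [NumberField K]

theorem PosUD.or' {P Q : HeightOneSpectrum (𝓞 K) → Prop} (h : PosUD fun v => P v ∨ Q v) :
    PosUD P ∨ PosUD Q := by
  by_contra hcon
  push Not at hcon
  have h1 : Tendsto (dens P) atTop (𝓝 0) := by
    by_contra h1
    exact hcon.1 (posUD_of_not h1)
  have h2 := h.diff h1
  exact hcon.2 (h2.mono fun v hv => hv.1.resolve_left hv.2)

/-- representations whose image is not large -/
theorem not_large {k : Type} [Field k] {l : ℕ} (hl : l.Prime) [CharP k l] (ρ : GK K →* GL (Fin 2) k)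
    (hρ : IsOpen (ρ.ker : Set (GK K))) (h : ¬ Large ρ) :
    (∃ v : Fin 2 → k, v ≠ 0 ∧ ∀ g, ∃ c : k, (ρ g : Matrix (Fin 2) (Fin 2) k) *ᵥ v = c • v) ∨
      ¬ l ∣ Nat.card ρ.range := by
  by_contra hcon
  push Not at hcon
  obtain ⟨h1, h2⟩ := hcon
  have hrc : ringChar k = l := (ringChar.eq k l).symm ▸ rfl
  have hfin : Finite ρ.range := fin_range ρ hρ
  apply h
  refine ⟨hrc ▸ h2, ?_⟩
  intro N hN _ hNi k' _ ι v hv hst
  refine large_of ι ρ hl ?_ h2 N hN (hrc ▸ hNi) hv hst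
  rintro ⟨v, hv, hst⟩
  obtain ⟨g, hg⟩ := h1 v hv
  obtain ⟨c, hc⟩ := hst g
  exact hg c hc

/-- the three possibilities, over an algebraically closed field -/
theorem three {k : Type} [Field k] {l : ℕ} (hl : l.Prime) [CharP k l] (ρ : GK K →* GL (Fin 2) k)
    (hρ : IsOpen (ρ.ker : Set (GK K))) (h : ¬ Large ρ) {kb : Type} [Field kb] [IsAlgClosed kb]
    (ι : k →+* kb) {ρb : GK K →* GL (Fin 2) kb}
    (hρb : ρb = (Matrix.GeneralLinearGroup.map ι).comp ρ) :
    (∃ v : Fin 2 → kb, v ≠ 0 ∧ ∀ g, ∃ c : kb, (ρb g : Matrix (Fin 2) (Fin 2) kb) *ᵥ v = c • v) ∨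
    (∃ U : Subgroup (GK K), U.index = 2 ∧ ρb.ker ≤ U ∧
      ∀ g ∉ U, (ρb g : Matrix (Fin 2) (Fin 2) kb).trace = 0) ∨
    ∀ g, ∃ a : kb, (ρb g : Matrix (Fin 2) (Fin 2) kb) ^ 60 = a • (1 : Matrix (Fin 2) (Fin 2) kb) := by
  have hρbv : ∀ g, (ρb g : Matrix (Fin 2) (Fin 2) kb) =
      (ρ g : Matrix (Fin 2) (Fin 2) k).map ι := fun g => by rw [hρb]; rfl
  subst hρb
  rcases not_large hl ρ hρ h with ⟨v, hv, hst⟩ | hcard
  · left
    refine ⟨fun i => ι (v i), map_ne ι hv, fun g => ?_⟩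
    obtain ⟨c, hc⟩ := hst g
    refine ⟨ι c, ?_⟩
    rw [hρbv, map_mulVec, hc]
    funext i
    simp
  · have hfin : Finite ρ.range := fin_range ρ hρ
    have hinjm : Function.Injective (Matrix.GeneralLinearGroup.map (n := Fin 2) ι) := by
      intro x y hxy
      apply Units.ext
      ext i j
      have h1 := congrArg (fun M : GL (Fin 2) kb => (M : Matrix (Fin 2) (Fin 2) kb) i j) hxy
      exact ι.injective h1
    have hfb : Function.Bijective (fun x : ρ.range => (⟨Matrix.GeneralLinearGroup.map ι x.1, by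
        obtain ⟨g, hg⟩ := x.2
        exact ⟨g, by rw [← hg]; rfl⟩⟩ : ((Matrix.GeneralLinearGroup.map ι).comp ρ).range)) := by
      constructor
      · intro x y hxy
        exact Subtype.ext (hinjm (congrArg Subtype.val hxy))
      · rintro ⟨_, g, rfl⟩
        exact ⟨⟨ρ g, g, rfl⟩, rfl⟩
    have hfinb : Finite ((Matrix.GeneralLinearGroup.map ι).comp ρ).range :=
      Finite.of_surjective _ hfb.2
    have hcb : Nat.card ((Matrix.GeneralLinearGroup.map ι).comp ρ).range = Nat.card ρ.range :=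
      (Nat.card_congr (Equiv.ofBijective _ hfb)).symm
    have hchb : CharP kb l := charP_of_injective_ringHom ι.injective l
    have hcb0 : ((Nat.card ((Matrix.GeneralLinearGroup.map ι).comp ρ).range : ℕ) : kb) ≠ 0 := by
      rw [hcb, Ne, CharP.cast_eq_zero_iff kb l]
      exact hcard
    exact small_image _ hcb0

variable {E : Type} [Field E] [NumberField E]

/-- the polynomial `X² - a v X + d v` -/
noncomputable def quad (a d : HeightOneSpectrum (𝓞 K) → 𝓞 E) (v : HeightOneSpectrum (𝓞 K)) :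
    (𝓞 E)[X] := X ^ 2 - Polynomial.C (a v) * X + Polynomial.C (d v)

theorem quad_map {a d : HeightOneSpectrum (𝓞 K) → 𝓞 E} {R : Type} [CommRing R] (φ : 𝓞 E →+* R)
    (v : HeightOneSpectrum (𝓞 K)) :
    (quad a d v).map φ = X ^ 2 - Polynomial.C (φ (a v)) * X + Polynomial.C (φ (d v)) := by
  unfold quad
  simp

theorem quad_eq {R : Type} [CommRing R] [IsDomain R] {s t x y : R} :
    (X ^ 2 - Polynomial.C s * X + Polynomial.C t = (X - Polynomial.C x) * (X - Polynomial.C y)) ↔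
      s = x + y ∧ t = x * y := by
  have h0 : (X - Polynomial.C x) * (X - Polynomial.C y) =
      X ^ 2 - Polynomial.C (x + y) * X + Polynomial.C (x * y) := by
    rw [Polynomial.C_add, Polynomial.C_mul]
    ring
  rw [h0]
  constructor
  · intro h
    have h1 := congrArg (fun p => p.coeff 0) h
    have h2 := congrArg (fun p => p.coeff 1) h
    simp only [coeff_add, coeff_sub, coeff_X_pow, coeff_C_mul, coeff_X, coeff_C] at h1 h2
    norm_num at h1 h2
    exact ⟨by linear_combination -h2, h1⟩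
  · rintro ⟨rfl, rfl⟩
    rfl

/-- a residual representation with a stable line gives two characters -/
theorem ab_of_line {N : ℕ} {a d : HeightOneSpectrum (𝓞 K) → 𝓞 E} {lam : HeightOneSpectrum (𝓞 E)}
    {k : Type} [Field k] {φ : 𝓞 E →+* k} {ρ : GK K →* GL (Fin 2) k} (h : IsRes N a d lam φ ρ)
    {kb : Type} [Field kb] (ι : k →+* kb) {ρb : GK K →* GL (Fin 2) kb}
    (hρb : ρb = (Matrix.GeneralLinearGroup.map ι).comp ρ)
    {w : Fin 2 → kb} (hw : w ≠ 0)
    (hst : ∀ g, ∃ c : kb, (ρb g : Matrix (Fin 2) (Fin 2) kb) *ᵥ w = c • w) :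
    AbGal N 2 (quad a d) lam := by
  have hρbv : ∀ g, (ρb g : Matrix (Fin 2) (Fin 2) kb) =
      (ρ g : Matrix (Fin 2) (Fin 2) k).map ι := fun g => by rw [hρb]; rfl
  obtain ⟨χ, hχ⟩ := line_char ρb hw hst
  set δ : GK K →* kbˣ := Matrix.GeneralLinearGroup.det.comp ρb with hδ
  have hδv : ∀ g, (δ g : kb) = (ρb g : Matrix (Fin 2) (Fin 2) kb).det := fun g => rfl
  have hone : ∀ g, ρ g = 1 → ρb g = 1 := fun g hg => by
    rw [hρb, MonoidHom.comp_apply, hg, map_one]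
  have hχ1 : ∀ g, ρ g = 1 → χ g = 1 := by
    intro g hg
    have h1 := hχ g
    rw [hone g hg, Units.val_one, Matrix.one_mulVec] at h1
    have h2 : ((χ g : kb) - 1) • w = 0 := by rw [sub_smul, ← h1, one_smul, sub_self]
    exact Units.ext (sub_eq_zero.1 ((smul_eq_zero.1 h2).resolve_right hw))
  have hδ1 : ∀ g, ρ g = 1 → δ g = 1 := by
    intro g hg
    rw [hδ, MonoidHom.comp_apply, hone g hg, map_one]
  set θ : Fin 2 → (GK K →* kbˣ) := ![χ, δ * χ⁻¹] with hθ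
  have hθ1 : ∀ i g, ρ g = 1 → θ i g = 1 := by
    intro i g hg
    fin_cases i
    · exact hχ1 g hg
    · show δ g * (χ g)⁻¹ = 1
      rw [hδ1 g hg, hχ1 g hg, inv_one, one_mul]
  have hker : RingHom.ker (ι.comp φ) = lam.asIdeal := by
    rw [← h.ker]
    ext x
    rw [RingHom.mem_ker, RingHom.mem_ker, RingHom.comp_apply, map_eq_zero_iff ι ι.injective]
  refine ⟨kb, inferInstance, ι.comp φ, θ, hker, fun i => Subgroup.isOpen_mono
    (fun g hg => hθ1 i g hg) h.continuous, ?_, ?_⟩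
  · intro i v hv σ hσ
    refine hθ1 i σ (h.unramified v ?_ ?_ σ hσ)
    · intro h1
      apply hv
      rw [Nat.cast_mul]
      exact v.asIdeal.mul_mem_right _ h1
    · intro h1
      apply hv
      rw [Nat.cast_mul]
      exact v.asIdeal.mul_mem_left _ h1
  · intro v hv hv' σ hσ
    rw [quad_map, Fin.prod_univ_two, quad_eq]
    have htr : (ρb σ : Matrix (Fin 2) (Fin 2) kb).trace = ι (φ (a v)) := by
      rw [← h.trace v hv hv' σ hσ, hρbv, Matrix.trace_fin_two, Matrix.trace_fin_two, map_add]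
      rfl
    have hdt : (ρb σ : Matrix (Fin 2) (Fin 2) kb).det = ι (φ (d v)) := by
      rw [← h.det v hv hv' σ hσ, hρbv, ← RingHom.mapMatrix_apply, ← RingHom.map_det]
    have h1 := eig_root hw (hχ σ)
    have h2 : ((δ * χ⁻¹) σ : kb) = (δ σ : kb) * (χ σ : kb)⁻¹ := by
      rw [MonoidHom.mul_apply, MonoidHom.inv_apply, Units.val_mul, Units.val_inv_eq_inv_val]
    have h3 : (χ σ : kb) ≠ 0 := Units.ne_zero _
    show ι (φ (a v)) = (χ σ : kb) + ((δ * χ⁻¹) σ : kb) ∧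
      ι (φ (d v)) = (χ σ : kb) * ((δ * χ⁻¹) σ : kb)
    rw [h2, hδv, hdt, ← htr]
    rw [hdt] at h1
    constructor
    · field_simp
      linear_combination -h1
    · field_simp

/-- **Large residual images.** -/
theorem main_gen (hDih : S_Dih) (hSpl : S_Spl) (hExc : S_Exc)
    (hcard : Fintype.card (K →+* E) = Module.finrank ℚ K) (j : E →+* QBar) (N : ℕ) (hN : 2 ≤ N)
    (a d : HeightOneSpectrum (𝓞 K) → 𝓞 E)
    (hred : ¬ ∃ (e : ℕ) (t : Fin 2 → (K →+* E) → ℕ) (ψ : Fin 2 → (Ideal (𝓞 K) →*₀ ZBar)),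
      (∀ i (𝔞 : Ideal (𝓞 K)), 𝔞 ≠ ⊥ → (ψ i 𝔞 ≠ 0 ↔ IsCoprime 𝔞 (Ideal.span {(N : 𝓞 K)}))) ∧
      (∀ i (x : 𝓞 K), InRay (N ^ e) x → ψ i (Ideal.span {x}) = jz j (typ (t i) x)) ∧
      ∀ v : HeightOneSpectrum (𝓞 K), (N : 𝓞 K) ∉ v.asIdeal →
        jz j (a v) = ψ 0 v.asIdeal + ψ 1 v.asIdeal ∧ jz j (d v) = ψ 0 v.asIdeal * ψ 1 v.asIdeal)
    (hdih : ∀ U : Subgroup (GK K), IsOpen (U : Set (GK K)) → U.index = 2 → UnrOut N U →
      ∃ v : HeightOneSpectrum (𝓞 K), (N : 𝓞 K) ∉ v.asIdeal ∧ a v ≠ 0 ∧ ∃ σ, IsFrob v σ ∧ σ ∉ U)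
    (Bad : HeightOneSpectrum (𝓞 E) → Prop)
    (hBad : ∀ lam, Bad lam → ∃ (k : Type) (_ : Field k) (φ : 𝓞 E →+* k)
      (ρ : GK K →* GL (Fin 2) k), IsRes N a d lam φ ρ ∧ ¬ Large ρ)
    (hexc : {v : HeightOneSpectrum (𝓞 K) | (N : 𝓞 K) ∉ v.asIdeal ∧ SpC E v ∧ a v ≠ 0}.Infinite →
      ∃ v : HeightOneSpectrum (𝓞 K), (N : 𝓞 K) ∉ v.asIdeal ∧
      ¬ ∃ ζ : AlgebraicClosure E, ζ ^ 60 = 1 ∧ algebraMap E (AlgebraicClosure E) (a v) ^ 2 =
      (ζ + ζ⁻¹ + 2) * algebraMap E (AlgebraicClosure E) (d v)) :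
    Tendsto (dens Bad) atTop (𝓝 0) := by
  classical
  by_contra hcon
  have h1 := posUD_of_not hcon
  have h2 : PosUD (fun lam : HeightOneSpectrum (𝓞 E) => Bad lam ∧ ¬ ((2 : ℕ) : 𝓞 E) ∈ lam.asIdeal) :=
    h1.diff (Pool.Agent.H500.Kum.dens_fin _ (Pool.Agent.H500.Kum.fin_mem (E := E)
      (x := ((2 : ℕ) : 𝓞 E)) (by norm_num)))
  -- infinitely many completely split places with `a v ≠ 0`
  have hinf : {v : HeightOneSpectrum (𝓞 K) | (N : 𝓞 K) ∉ v.asIdeal ∧ SpC E v ∧ a v ≠ 0}.Infinite := by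
    obtain ⟨lam, hlam, h2l⟩ := h2.nonempty
    obtain ⟨k, _, φ, ρ, hρ, -⟩ := hBad lam hlam
    obtain ⟨U0, -, -, hU0⟩ := hSpl K E
    have h3 := hU0 ρ.ker inferInstance hρ.continuous 1 U0.one_mem N (by omega)
    have h4 : {v : HeightOneSpectrum (𝓞 K) |
        ((Ideal.absNorm lam.asIdeal : ℕ) : 𝓞 K) ∈ v.asIdeal}.Finite :=
      Pool.Agent.H500.Kum.fin_mem (E := K) (Nat.cast_ne_zero.2 (norm_ne_zero lam))
    refine (h3.sdiff h4).mono ?_
    rintro v ⟨⟨hv1, hv2, σ, hσ, hσ1⟩, hv3⟩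
    refine ⟨hv1, hv2, fun h0 => ?_⟩
    have h5 := hρ.trace v hv1 hv3 σ hσ
    have h6 : ρ σ = 1 := by
      rw [inv_one, one_mul] at hσ1
      exact hσ1
    rw [h6, h0, map_zero, Units.val_one, Matrix.trace_one, Fintype.card_fin] at h5
    apply h2l
    rw [← hρ.ker, RingHom.mem_ker, map_natCast]
    exact h5
  -- the three cases
  have hcases : ∀ lam, (Bad lam ∧ ¬ ((2 : ℕ) : 𝓞 E) ∈ lam.asIdeal) →
      AbGal N 2 (quad a d) lam ∨
      ((∃ U : Subgroup (GK K), IsOpen (U : Set (GK K)) ∧ U.index = 2 ∧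
        UnrOut (N * Ideal.absNorm lam.asIdeal) U ∧
        ∀ v : HeightOneSpectrum (𝓞 K), (N : 𝓞 K) ∉ v.asIdeal →
          ((Ideal.absNorm lam.asIdeal : ℕ) : 𝓞 K) ∉ v.asIdeal → ∀ σ, IsFrob v σ → σ ∉ U →
          a v ∈ lam.asIdeal) ∨
      ∃ (k : Type) (_ : Field k) (φ : 𝓞 E →+* k) (ρ : GK K →* GL (Fin 2) k),
        RingHom.ker φ = lam.asIdeal ∧
        (∀ g, ∃ c : k, (ρ g : Matrix (Fin 2) (Fin 2) k) ^ 60 = c • (1 : Matrix (Fin 2) (Fin 2) k)) ∧
        ∀ v : HeightOneSpectrum (𝓞 K), (N : 𝓞 K) ∉ v.asIdeal →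
          ((Ideal.absNorm lam.asIdeal : ℕ) : 𝓞 K) ∉ v.asIdeal → ∀ σ, IsFrob v σ →
          (ρ σ : Matrix (Fin 2) (Fin 2) k).trace = φ (a v) ∧
          (ρ σ : Matrix (Fin 2) (Fin 2) k).det = φ (d v)) := by
    rintro lam ⟨hlam, -⟩
    obtain ⟨k, _, φ, ρ, hρ, hnl⟩ := hBad lam hlam
    obtain ⟨l, f, hl, hlm, hf0, hlf⟩ := exists_char lam
    have hlk : (l : k) = 0 := by
      have h1 : φ (l : 𝓞 E) = 0 := by
        rw [← RingHom.mem_ker, hρ.ker]
        exact hlm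
      rwa [map_natCast] at h1
    have hch : CharP k l := by
      obtain ⟨p, hp⟩ := CharP.exists k
      have h1 : p ∣ l := (CharP.cast_eq_zero_iff k p l).1 hlk
      rcases (Nat.dvd_prime hl).1 h1 with h2 | h2
      · exact absurd h2 (CharP.char_ne_one k p)
      · exact h2 ▸ hp
    set kb := AlgebraicClosure k
    set ι : k →+* kb := algebraMap k kb with hι
    set ρb : GK K →* GL (Fin 2) kb := (Matrix.GeneralLinearGroup.map ι).comp ρ with hρb
    have hρbv : ∀ g, (ρb g : Matrix (Fin 2) (Fin 2) kb) =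
      (ρ g : Matrix (Fin 2) (Fin 2) k).map ι := fun g => rfl
    have hone : ∀ g, ρ g = 1 → ρb g = 1 := fun g hg => by
      rw [hρb, MonoidHom.comp_apply, hg, map_one]
    have htr : ∀ v : HeightOneSpectrum (𝓞 K), (N : 𝓞 K) ∉ v.asIdeal →
        ((Ideal.absNorm lam.asIdeal : ℕ) : 𝓞 K) ∉ v.asIdeal → ∀ σ, IsFrob v σ →
        (ρb σ : Matrix (Fin 2) (Fin 2) kb).trace = ι (φ (a v)) ∧
        (ρb σ : Matrix (Fin 2) (Fin 2) kb).det = ι (φ (d v)) := by
      intro v hv hv' σ hσ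
      constructor
      · rw [← hρ.trace v hv hv' σ hσ, hρbv, Matrix.trace_fin_two, Matrix.trace_fin_two, map_add]
        rfl
      · rw [← hρ.det v hv hv' σ hσ, hρbv, ← RingHom.mapMatrix_apply, ← RingHom.map_det]
    rcases three hl ρ hρ.continuous hnl ι hρb with ⟨w, hw, hst⟩ | ⟨U, hU2, hUk, hUt⟩ | h
    · left
      exact ab_of_line hρ ι hρb hw hst
    · right; left
      refine ⟨U, Subgroup.isOpen_mono (fun g hg => hUk (hone g hg)) hρ.continuous, hU2, ?_, ?_⟩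
      · intro v hv σ hσ
        refine hUk (hone σ (hρ.unramified v ?_ ?_ σ hσ))
        · intro h1
          apply hv
          rw [Nat.cast_mul]
          exact v.asIdeal.mul_mem_right _ h1
        · intro h1
          apply hv
          rw [Nat.cast_mul]
          exact v.asIdeal.mul_mem_left _ h1
      · intro v hv hv' σ hσ hσU
        have h3 := hUt σ hσU
        rw [(htr v hv hv' σ hσ).1, map_eq_zero_iff ι ι.injective, ← RingHom.mem_ker, hρ.ker] at h3
        exact h3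
    · right; right
      refine ⟨kb, inferInstance, ι.comp φ, ρb, ?_, h, htr⟩
      rw [← hρ.ker]
      ext x
      rw [RingHom.mem_ker, RingHom.mem_ker, RingHom.comp_apply, map_eq_zero_iff ι ι.injective]
  rcases PosUD.or' (h2.mono hcases) with h3 | h3
  · -- reducible
    obtain ⟨e, t, ψ, h4, h5, h6⟩ := gal_main hcard j N 2 hN (quad a d) h3
    apply hred
    refine ⟨e, t, ψ, h4, h5, fun v hv => ?_⟩
    have h7 := h6 v hv
    rw [quad_map, Fin.prod_univ_two, quad_eq] at h7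
    exact h7
  rcases PosUD.or' h3 with h3 | h3
  · -- dihedral
    obtain ⟨U, hU1, hU2, hU3, hU4⟩ := hDih K E hcard N a hN hinf _ h3 (fun lam h => h)
    obtain ⟨v, hv, hav, σ, hσ, hσU⟩ := hdih U hU1 hU2 hU3
    exact hav (hU4 v hv σ hσ hσU)
  · -- projectively finite
    obtain ⟨v, hv, hv2⟩ := hexc hinf
    exact hv2 (hExc K E N a d _ (by omega) h3.infinite (fun lam h => h) v hv)

end Pool.Agent.H500.R2
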